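import Pool.Agent.R828.GIdeal

/-!
# MP_405a2c_gt: a normal group-ideal ballean without linearly ordered base
-/

namespace Pool.Agent.Results.MP_405a2c_gt.UltraIdeal

open Set Pool.Agent.R828.GIdeal

/-- `img`, `IsBallean`, `Bounded`, `AsympDisjoint`, `IsNormal`, `IsGroupIdeal`, `entourage`, `ent`
and `HasLinearBase` are defined in `Pool/Agent/R828/GIdeal.lean`. -/
theorem result : ∃ (G : Type) (_ : Group G) (ℐ : Set (Set G)),
    -- `ℐ` is a group ideal on a countable Boolean group
    Countable G ∧ (∀ g : G, g * g = 1) ∧ IsGroupIdeal ℐ ∧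
    -- `(G, ent ℐ)` is a ballean with family `ℐ` of bounded sets
    IsBallean (ent ℐ) ∧ (∀ B : Set G, Bounded (ent ℐ) B ↔ B ∈ ℐ) ∧
    -- no two unbounded sets are asymptotically disjoint, so that the ballean is normal
    (∀ A B : Set G, AsympDisjoint (ent ℐ) A B → A ∈ ℐ ∨ B ∈ ℐ) ∧ IsNormal (ent ℐ) ∧
    -- the ideal has no linearly ordered base
    ¬ HasLinearBase ℐ := by
  have hq : ∀ s : Set ℕ, s.Finite → s ∉ Filter.hyperfilter ℕ := fun s hs =>
    hs.notMem_hyperfilter
  have h := isGroupIdeal hq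
  refine ⟨H, inferInstance, KI (Filter.hyperfilter ℕ), inferInstanceAs (Countable (ℕ →₀ ZMod 2)),
    ?_, h, isBallean h, fun B => bounded_iff h, ?_, ?_, not_hasLinearBase hq⟩
  · intro g
    have h1 : ∀ x : ZMod 2, x + x = 0 := by decide
    have h2 : Multiplicative.toAdd g + Multiplicative.toAdd g = 0 := by
      ext n
      simp only [Finsupp.add_apply, Finsupp.zero_apply, h1]
    exact h2
  · intro A B hAB
    by_contra hcon
    push Not at hcon
    exact not_asympDisjoint hq A B hcon.1 hcon.2 hAB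
  · exact isNormal_of_ultranormal h (not_asympDisjoint hq)

end Pool.Agent.Results.MP_405a2c_gt.UltraIdeal
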